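import Pool.Agent.X163.CO

/-!
# The Singer conjecture for Poincaré duality groups with a co-amenable subgroup

A Poincaré duality group `Γ` is of type `FP`, so the trivial module `ℂ` has a resolution by finitely
generated free `ℂΓ`-modules
`... → ℂΓ^(c 3) → ℂΓ^(c 2) → ℂΓ^(c 1) → ℂ → 0`, with boundary maps given by matrices `D p` over the
group ring (`ℂΓ^(c (p + 1))` is in degree `p`, and `c 0 = 0`). The `ℓ²`-Betti number `b_p(Γ)` is
`betti (D (p + 1)) (D p)`. Only `D (p + 1) D p = 0` is used below.

Let `H` be a subgroup of infinite index such that the action of `Γ` on `Γ/H` is amenable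
(`H` is co-amenable). For example `H` is normal and `Γ/H` is an infinite amenable group, but `H` need not
be normal.

Theorem. (1) In every degree `p` in which the `ℓ²`-Betti number over `H` is finite, `b_p(Γ) = 0`.
(2) If the resolution has finite length and the `ℓ²`-Betti numbers over `H` are finite in all degrees
except possibly one degree `m` (for instance `m = n/2`), then `b_p(Γ) = 0` for `p ≠ m`, the assertion of
Q1, and `χ(Γ) = (-1)^m b_m(Γ)`.
(3) If moreover the one in degree `m` is finite, then all `b_p(Γ)` and `χ(Γ)` are zero.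

If `H` is of type `FP` then all its `ℓ²`-Betti numbers are finite. So the Singer conjecture holds for
`Γ`, also in the middle dimension, if `Γ` has a co-amenable subgroup of infinite index and of type `FP`,
for instance one which is itself a Poincaré duality group.

`Chains`, `val`, `cl`, `proj`, `mulMat`, `cycles`, `boundaries`, `dim`, `IsComplex`, `betti`,
`supportedOver`, `FiniteBetti` and `AmenableAction` are defined in
`Pool.Agent.Results.MP_f80465_gt.CoamenableSubgroups`.
-/

set_option autoImplicit false

universe u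

namespace Pool.Agent.Results.MP_984acc_gt.CoamenableSubgroups

open Pool.Agent.Results.MP_f80465_gt.CoamenableSubgroups (IsComplex betti FiniteBetti AmenableAction)

/-- Let `H` be a co-amenable subgroup of infinite index of `Γ`, and let `D` be the boundary maps of a
complex of finitely generated free `ℂΓ`-modules. In each degree in which the `ℓ²`-Betti number over `H`
is finite, the `ℓ²`-Betti number over `Γ` is zero. If the complex is finite and this holds in all degrees
except `m`, then the Euler characteristic is `(-1)^m b_m(Γ)`; if it holds in all degrees, it is zero. -/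
theorem result {Γ : Type u} [Group Γ] (H : Subgroup Γ) (hH : AmenableAction Γ (Γ ⧸ H))
    (hi : Infinite (Γ ⧸ H)) (c : ℕ → ℕ)
    (D : ∀ p, Matrix (Fin (c (p + 1))) (Fin (c p)) (Γ →₀ ℂ)) (hc : c 0 = 0)
    (hD : ∀ p, IsComplex (D (p + 1)) (D p)) :
    (∀ p, FiniteBetti H (D (p + 1)) (D p) → betti (D (p + 1)) (D p) = 0) ∧
    ∀ N m : ℕ, (∀ p, N < p → c p = 0) → (∀ p, p ≠ m → FiniteBetti H (D (p + 1)) (D p)) →
      (∀ p, p ≠ m → betti (D (p + 1)) (D p) = 0) ∧
      ((∑ p ∈ Finset.range N, (-1 : ℤ) ^ p * (c (p + 1) : ℤ) : ℤ) : ℝ) =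
        (-1) ^ m * betti (D (m + 1)) (D m) ∧
      (FiniteBetti H (D (m + 1)) (D m) → (∀ p, betti (D (p + 1)) (D p) = 0) ∧
        ∑ p ∈ Finset.range N, (-1 : ℤ) ^ p * (c (p + 1) : ℤ) = 0) := by
  have h1 := (Pool.Agent.Results.MP_f80465_gt.CoamenableSubgroups.result H hH hi).1
  have h2 : ∀ p, FiniteBetti H (D (p + 1)) (D p) → betti (D (p + 1)) (D p) = 0 := fun p hp =>
    h1 _ _ _ _ _ (hD p) hp
  refine ⟨h2, fun N m hN hβ => ?_⟩
  have h3 : ((∑ p ∈ Finset.range N, (-1 : ℤ) ^ p * (c (p + 1) : ℤ) : ℤ) : ℝ) =
        (-1) ^ m * betti (D (m + 1)) (D m) := by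
    rw [Pool.Agent.X163.CO.euler c N D hc hN]
    rcases lt_or_ge m N with hm | hm
    · rw [Finset.sum_eq_single m]
      · intro p _ hp
        rw [h2 p (hβ p hp), mul_zero]
      · intro h
        exact absurd (Finset.mem_range.2 hm) h
    · rw [Pool.Agent.X163.CO.betti_top c N D hN hm, mul_zero]
      apply Finset.sum_eq_zero
      intro p hp
      rw [h2 p (hβ p (by have := Finset.mem_range.1 hp; omega)), mul_zero]
  refine ⟨fun p hp => h2 p (hβ p hp), h3, fun hm => ⟨fun p => ?_, ?_⟩⟩
  · by_cases hp : p = m
    · subst hp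
      exact h2 p hm
    · exact h2 p (hβ p hp)
  · rw [h2 m hm, mul_zero] at h3
    exact_mod_cast h3

end Pool.Agent.Results.MP_984acc_gt.CoamenableSubgroups
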