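import Pool.Agent.X250.Sph.ClassY

/-!
# The Singer conjecture for Poincare duality groups in right-angled Coxeter groups of the class `AY`

Let `L` be the flag complex of the finite graph `G`, and suppose that `L` is a homology manifold with the homology of
the `(n-1)`-sphere.  Then all torsion-free subgroups of finite index of the right-angled Coxeter group `W G` are
Poincare duality groups of dimension `n` (Davis): over the integers if `L` is an integral homology sphere, over the
reals in the generality of `HSph n G`.  They act freely and cocompactly on the Davis complex of `W G`.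

The Singer conjecture for them is in the starting library for the class `AQ n`.  In odd dimensions the members of
`AQ n` come from the barycentric subdivisions and similar complexes, or from the class `n - 1`.  Here we show that
the class can be enlarged by a rule which lowers `n`: if the links of all vertices are in the class `2 m + 1` (so that
the vanishing above the middle holds for `n = 2 m + 2`) and if moreover the middle `ℓ²`-homology of the group
vanishes (for homology spheres: if the Euler characteristic of the group is zero) then all full subcomplexes have
vanishing `ℓ²`-homology in the middle degree `m + 1` too, so that the complex is in the class `2 m + 1`.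
Thus the Singer conjecture follows in odd dimensions from the vanishing of Euler characteristics of links.
-/

set_option autoImplicit false

namespace Pool.Agent.Results.MP_984acc_gt.DropRule

open Pool.Agent.W907.SG Pool.Agent.W907.SM Pool.Agent.TH652.Above Pool.Agent.Y132.SI Pool.Agent.X250.Sph

/-- (1) Let the flag complex of `G` be a real homology sphere of dimension `n - 1` in the class `AY n`.  Then the
reduced `ℓ²`-homology of the Davis complex of `W G` vanishes in all degrees `i ≠ n / 2`; for `n = 2 m` the number
`(-1)^m χ(W G)` is not negative, and if it is zero then the reduced `ℓ²`-homology vanishes in all degrees; and for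
each `ε > 0` there is a finite set `E` of nontrivial elements of `W G` such that for every subgroup `H` of finite
index of `W G` which contains no conjugate of an element of `E`, and for all `i`, the `i`-th real Betti number of `H`
(the dimension of the space of the `H`-invariant real harmonic `i`-chains of the Davis complex) differs by at most
`ε [W G : H]` from `0`, if `2 i ≠ n`, or from `(-1)^i χ(W G) [W G : H]`, if `2 i = n`.
(2) An odd dimensional case: let the flag complex of `G` be a real homology sphere of dimension `2 m + 2`, let `B` be
a set of vertices which contains no face with `m + 2` vertices, and suppose that for all vertices `v` outside `B` the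
Euler characteristic of the Coxeter group of the link of `v` is zero and the links of the edges at `v` are in the
class `AY (2 m + 1)`.  Then the reduced `ℓ²`-homology of the Davis complex of `W G` vanishes in all degrees. -/
theorem result :
    (∀ (n : ℕ) (V : Type) [Fintype V] [LinearOrder V] (G : SimpleGraph V), HSph n G → AY n G →
      (∀ i : ℕ, 2 * i ≠ n → L2Van G i) ∧
      (∀ m : ℕ, n = 2 * m → 0 ≤ (-1 : ℚ) ^ m * chiW G ∧ (chiW G = 0 → ∀ i : ℕ, L2Van G i)) ∧
      ∀ ε : ℝ, 0 < ε → ∃ E : Finset (W G), (1 : W G) ∉ E ∧
        ∀ H : Subgroup (W G), H.FiniteIndex → (∀ g ∈ E, ∀ x : W G, x * g * x⁻¹ ∉ H) → ∀ i : ℕ,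
          |(Module.finrank ℝ (HInv G H i) : ℝ) -
            (if 2 * i = n then (-1) ^ i * (chiW G : ℝ) else 0) * H.index| ≤ ε * H.index) ∧
    (∀ (m : ℕ) (V : Type) [Fintype V] [LinearOrder V] (G : SimpleGraph V) (B : Set V)
      [∀ v, Fintype ↥(G.neighborSet v)],
      HSph (2 * m + 3) G → (∀ T : Finset V, G.IsClique (T : Set V) → (T : Set V) ⊆ B → T.card ≤ m + 1) →
      (∀ v, v ∉ B → chiW (G.induce (G.neighborSet v)) = 0 ∧ ∀ w, G.Adj v w →
        AY (2 * m + 1) (G.induce (G.neighborSet v ∩ G.neighborSet w))) →
      ∀ i : ℕ, L2Van G i) := by
  refine ⟨?_, ?_⟩
  · intro n V _ _ G hS hA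
    have h1 : ∀ i : ℕ, 2 * i ≠ n → L2Van G i := fun i hi => singer_AY hS hA i hi
    refine ⟨h1, ?_, fun ε hε => growth_free G n h1 ε hε⟩
    rintro m rfl
    have h2 : ∀ i, i ≠ m → L2Van G i := fun i hi => h1 i (by omega)
    exact ⟨(gap_of hS h2).1, (gap_of hS h2).2.1.2⟩
  · intro m V _ _ G B _ hS hB hv i
    have h1 : Q (2 * m + 2) G := by
      refine Q_loc G B hB fun v hvB => ?_
      obtain ⟨h2, h3⟩ := hv v hvB
      have e : lk G {v} = G.neighborSet v := by
        ext x
        simp only [lk, Finset.mem_singleton, forall_eq, Set.mem_ofPred_eq, SimpleGraph.mem_neighborSet]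
        exact G.adj_comm x v
      have hS' : HSph (2 * m + 2) (G.induce (G.neighborSet v)) := by
        have h4 : ∀ (A : Set V) [Fintype ↥A], lk G {v} = A → HSph (2 * m + 2) (G.induce A) := by
          rintro A _ rfl
          have h5 := hSph_lk hS {v} (by simp)
          rw [Finset.card_singleton] at h5
          exact h5
        exact h4 _ e
      refine Q_drop_sphere _ hS' h2 fun w => ?_
      have h5 := Q_of_AY (h3 w.1 w.2)
      refine Q_emb _ _ ⟨⟨fun x => ⟨x.1.1, x.1.2, x.2⟩, fun a b hab =>
        Subtype.ext (Subtype.ext (congrArg (fun z => z.1) hab))⟩, fun {a b} => Iff.rfl⟩ h5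
    exact singer_of_above hS (fun i hi => (lv_univ G i).1 (h1.2 Set.univ i (by omega)) _ _) i (by omega)

end Pool.Agent.Results.MP_984acc_gt.DropRule
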