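import Pool.Agent.X308.T.Iff

/-!
# The Singer conjecture from a bound in one degree

The class `C` of the theorem: Poincare duality groups, dim = the formal dimension; b_i = i-th L2-Betti number.
-/

set_option autoImplicit false

namespace Pool.Agent.Results.MP_984acc_gt.OneDegreeSlope

open Pool.Agent.X308.T

/-- **Theorem.** Let `L` be a class with products, the Künneth inequality and surfaces with large
`b 1`. For `α ≥ 1 / 2` the vanishing of all `b M i` with `i > α dim M` is equivalent to a bound
`b j ≤ B ^ d exp (f (c N))` in one degree `j = j t` in each of a sequence of dimensions `d = d t`,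
with `d t → ∞`, `j t / d t → α` and the divisibility condition. With Poincaré duality the Singer
conjecture is equivalent to such a bound for `α = 1 / 2`. -/
theorem result {C : Type} (L : ProductClass C) :
    (∀ α : ℝ, 1 / 2 ≤ α → (L.VanishingAbove α ↔ L.BoundAlongDivisible α)) ∧
    (L.Duality → (L.Singer ↔ L.BoundAlongDivisible (1 / 2))) :=
  ⟨fun _ hα => L.iff_divisible hα, L.singer_iff⟩

end Pool.Agent.Results.MP_984acc_gt.OneDegreeSlope
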