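import Pool.Agent.X250.Sph.Small

/-!
# A one-sided Morse criterion for the Singer conjecture

Let `L` be the flag complex of the finite graph `G`, and suppose that `L` is a homology manifold with the homology of
the `(n-1)`-sphere.  Then all torsion-free subgroups of finite index of the right-angled Coxeter group `W G` are
Poincare duality groups of dimension `n` (Davis).

A *slope* of `G` on a finite set `X` consists of involutions `a v` of `X` for the vertices `v`, commuting for adjacent
vertices, and of directions of the edges from `x` to `a v x`, such that opposite edges of squares are parallel.  (The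
legal systems of Jankiewicz-Norin-Wise are examples: `X` consists of sets `S` of vertices, `a v` replaces `S` by its
symmetric difference with a set `M v` which contains `v` and no neighbour of `v`, and one goes down in the direction of
`v` if `v ∈ S`.)  It gives a Bestvina-Brady Morse function on an infinite cyclic covering of a quotient of the Davis
complex, whose descending links are the full subcomplexes `L[down x]`.

We show that the `i`-th `ℓ²`-Betti number of `W G` vanishes if the `(i-1)`-st reduced real homology of all descending
links vanishes.  Only the descending links and only one degree are used.  With duality this gives the Singer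
conjecture for spheres whose links of `k`-vertex faces are in the class `AM (2 j)`, `n = 2 j + k`, if there are slopes
for the degrees `i` with `n / 2 < i ≤ n - j`; for `k = 1` and `k = 2` this is only one degree.  For `j ≤ 1` there is no
condition on the links: for all flag homology `(n-1)`-spheres, slopes for the degrees `n / 2 < i ≤ n - 1` suffice.
-/

set_option autoImplicit false

namespace Pool.Agent.Results.MP_984acc_gt.OneSidedMorse

open Pool.Agent.W907.SG Pool.Agent.W907.SM Pool.Agent.TH652.Above Pool.Agent.Y132.SI Pool.Agent.X250.Sph
open Pool.Agent.TH652.Dual (triv)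

/-- Let `n = 2 j + k` with `1 ≤ k`, and let the flag complex `L` of `G` be a real homology sphere of dimension `n - 1`
such that, if `2 ≤ j`, the links of the faces with `k` vertices are in the class `AM (2 j)`.
Suppose that for each `i` with `n / 2 < i ≤ j + k` there is a slope of `G` on a nonempty finite set `X` such that the
`(i - 1)`-st reduced real homology of the full subcomplexes `L[down x]` vanishes for all `x` in `X`.
Then the reduced `ℓ²`-homology of the Davis complex of `W G` vanishes in all degrees `i ≠ n / 2`; for `n = 2 m` the
number `(-1)^m χ(W G)` is not negative, and if it is zero then the reduced `ℓ²`-homology vanishes in all degrees; and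
for each `ε > 0` there is a finite set `E` of nontrivial elements of `W G` such that for every subgroup `H` of finite
index of `W G` which contains no conjugate of an element of `E`, and for all `i`, the `i`-th real Betti number of `H`
(the dimension of the space of the `H`-invariant real harmonic `i`-chains of the Davis complex) differs by at most
`ε [W G : H]` from `0`, if `2 i ≠ n`, or from `(-1)^i χ(W G) [W G : H]`, if `2 i = n`. -/
theorem result : ∀ (j k : ℕ) (V : Type) [Fintype V] [LinearOrder V] (G : SimpleGraph V), 1 ≤ k →
    HSph (2 * j + k) G →
    (2 ≤ j → ∀ T : Finset V, G.IsClique (T : Set V) → T.card = k → AM (2 * j) (G.induce (lk G T))) →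
    (∀ i : ℕ, 2 * j + k < 2 * i → i ≤ j + k →
      ∃ (X : Type) (_ : Fintype X) (_ : Nonempty X) (s : Slope G X),
        ∀ x, beta G (triv V) (s.down x) ∅ i = 0) →
    (∀ i : ℕ, 2 * i ≠ 2 * j + k → L2Van G i) ∧
    (∀ m : ℕ, 2 * j + k = 2 * m → 0 ≤ (-1 : ℚ) ^ m * chiW G ∧ (chiW G = 0 → ∀ i : ℕ, L2Van G i)) ∧
    ∀ ε : ℝ, 0 < ε → ∃ E : Finset (W G), (1 : W G) ∉ E ∧
      ∀ H : Subgroup (W G), H.FiniteIndex → (∀ g ∈ E, ∀ x : W G, x * g * x⁻¹ ∉ H) → ∀ i : ℕ,
        |(Module.finrank ℝ (HInv G H i) : ℝ) -
          (if 2 * i = 2 * j + k then (-1) ^ i * (chiW G : ℝ) else 0) * H.index| ≤ ε * H.index := by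
  intro j k V _ _ G hk hS hA hs
  obtain ⟨k, rfl⟩ := Nat.exists_eq_add_of_le' hk
  have hP : FaceP j (k + 1) G := FaceP.of hS hA
  have h1 : ∀ i : ℕ, 2 * i ≠ 2 * j + (k + 1) → L2Van G i := fun i hi => hP.morse hS hs hi
  refine ⟨h1, ?_, fun ε hε => growth_free G (2 * j + (k + 1)) h1 ε hε⟩
  intro m hm
  have h2 : ∀ i, i ≠ m → L2Van G i := fun i hi => h1 i (by omega)
  have hS' : HSph (2 * m) G := hSph_congr hm hS
  exact ⟨(gap_of hS' h2).1, (gap_of hS' h2).2.1.2⟩

end Pool.Agent.Results.MP_984acc_gt.OneSidedMorse
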